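import Mathlib

/-!
# Gromov-Hausdorff and Hausdorff distance of subsets of the circle

`S1 = AddCircle (2π)` is the circle of length `2π` with its arc-length metric. For nonempty `X ⊆ S1` let
`dH X = sup_p inf_{x ∈ X} d(p,x)` and let `dGH X` be the Gromov-Hausdorff distance between `X` (with the
restricted metric) and `S1`. We show that `max(min(dH X, π/3), dH X/2) ≤ dGH X ≤ dH X`, that the lower bound
is attained for every value of `dH X` in `[0,π]`; in particular `dGH X = dH X` whenever `dH X ≤ π/3`, and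
`π/3` is optimal.

Lower bound: let `f : S1 → X` have distortion `δ < 2r`, where `X` misses an arc of length `2r`. Then `f` is a
real-valued map `Y` with jumps at most `δ`, and `Y(p) - Y(-p)` changes sign. At the place of the change four
values `a, b, a', b'` with `|a-a'|, |b-b'| ≤ min(δ, 2π-2r)` and `|a-b|, |a'-b'|, |a-b'| ≥ π-δ` give
`2(π-δ) ≤ min(δ, 2π-2r)`.
-/

open Real Set

namespace Pool.Agent.Results.MP_124474_gt.SharpThreshold

/-- the circle of length `2π` with its arc-length metric -/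
abbrev S1 : Type := AddCircle (2 * π)

instance : Fact (0 < 2 * π) := ⟨by positivity⟩

theorem S1_dist (a b : ℝ) (h : |a - b| ≤ 2 * π) :
    dist (a : S1) (b : S1) = min |a - b| (2 * π - |a - b|) := by
  rw [dist_eq_norm, ← AddCircle.coe_sub]
  have hp : (2 * π) ≠ 0 := by positivity
  have key : ∀ t : ℝ, 0 ≤ t → t ≤ 2 * π → ‖(t : S1)‖ = min t (2 * π - t) := by
    intro t h0 h1
    rcases le_total t π with ht | ht
    · rw [(AddCircle.norm_coe_eq_abs_iff _ hp).2, abs_of_nonneg h0, min_eq_left (by linarith)]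
      rw [abs_of_nonneg h0, abs_of_pos (by positivity)]
      linarith
    · have e : ((t : ℝ) : S1) = ((t - 2 * π : ℝ) : S1) := by
        rw [AddCircle.coe_sub, AddCircle.coe_period, sub_zero]
      rw [e, (AddCircle.norm_coe_eq_abs_iff _ hp).2, abs_of_nonpos (by linarith), min_eq_right (by linarith)]
      · ring
      · rw [abs_of_nonpos (by linarith), abs_of_pos (by positivity)]
        linarith
  rcases le_total 0 (a - b) with h0 | h0
  · rw [abs_of_nonneg h0] at h ⊢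
    exact key _ h0 h
  · rw [abs_of_nonpos h0] at h ⊢
    have e : ‖((a - b : ℝ) : S1)‖ = ‖((-(a - b) : ℝ) : S1)‖ := by
      rw [AddCircle.coe_neg, norm_neg]
    rw [e]
    exact key _ (by linarith) h

theorem S1_dist_le (a b : ℝ) : dist (a : S1) (b : S1) ≤ |a - b| := by
  rw [dist_eq_norm, ← AddCircle.coe_sub]
  exact QuotientAddGroup.norm_mk_le_norm

theorem S1_dist_le_pi (a b : S1) : dist a b ≤ π := by
  rw [dist_eq_norm]
  have h := AddCircle.norm_le_half_period (2 * π) (x := a - b) (by positivity)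
  rw [abs_of_pos (by positivity)] at h
  linarith

/-- coordinate in `[0, 2π)` -/
theorem exists_coord (c x : S1) : ∃ t : ℝ, 0 ≤ t ∧ t < 2 * π ∧ x = c + (t : S1) := by
  obtain ⟨t, ht, he⟩ := AddCircle.coe_image_Ico_eq (2 * π) 0 ▸ (mem_univ (x - c))
  refine ⟨t, ht.1, by simpa using ht.2, ?_⟩
  rw [he]
  abel

theorem sign_change (D : ℕ → ℝ) (N : ℕ) (hN : D N = - D 0) (h0 : ∀ k, D k ≠ 0) :
    ∃ k < N, (0 < D k ∧ D (k + 1) < 0) ∨ (D k < 0 ∧ 0 < D (k + 1)) := by
  by_contra hcon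
  push Not at hcon
  have key : ∀ k ≤ N, (0 < D 0 ↔ 0 < D k) := by
    intro k
    induction k with
    | zero => intro _; rfl
    | succ k ih =>
      intro hk
      rw [ih (by omega)]
      have h := hcon k (by omega)
      constructor
      · intro h1
        exact lt_of_le_of_ne (h.1 h1) (h0 _).symm
      · intro h1
        by_contra h2
        have h3 : D k < 0 := lt_of_le_of_ne (not_lt.1 h2) (h0 k)
        exact absurd h1 (not_lt.2 (h.2 h3))
  have h := key N le_rfl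
  rw [hN] at h
  rcases lt_or_gt_of_ne (h0 0) with h1 | h1
  · exact absurd (h.2 (by linarith)) (by linarith)
  · exact absurd (h.1 h1) (by linarith)

/-- core estimate: a map from the circle into a set missing an open arc of radius `r`
has large distortion -/
theorem core (c : S1) (f : S1 → S1) (r δ : ℝ) (hδ : δ < 2 * r)
    (hgap : ∀ p, r ≤ dist c (f p)) (hf : ∀ p q, |dist (f p) (f q) - dist p q| ≤ δ) :
    2 * π / 3 ≤ δ ∧ r ≤ δ := by
  have hπ := Real.pi_pos
  have hrpi : r ≤ π := (hgap c).trans (S1_dist_le_pi _ _)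
  by_cases hδπ : π ≤ δ
  · constructor <;> linarith
  rw [not_le] at hδπ
  -- coordinates
  have hY : ∀ p, ∃ t : ℝ, r ≤ t ∧ t ≤ 2 * π - r ∧ f p = c + (t : S1) := by
    intro p
    obtain ⟨t, ht0, ht1, he⟩ := exists_coord c (f p)
    have h1 := hgap p
    have h2 : dist c (f p) = min t (2 * π - t) := by
      have e : dist c (f p) = dist ((0 : ℝ) : S1) (t : S1) := by
        rw [he, AddCircle.coe_zero, dist_zero_left, dist_self_add_right]
      rw [e, S1_dist _ _ (by rw [zero_sub, abs_neg, abs_of_nonneg ht0]; exact ht1.le), zero_sub, abs_neg,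
        abs_of_nonneg ht0]
    rw [h2] at h1
    exact ⟨t, h1.trans (min_le_left _ _), by linarith [h1.trans (min_le_right _ _)], he⟩
  choose Y hY1 hY2 hY3 using hY
  have hYd : ∀ p q, |Y p - Y q| ≤ 2 * π - 2 * r := by
    intro p q
    rw [abs_le]
    constructor <;> linarith [hY1 p, hY2 p, hY1 q, hY2 q]
  have hr0 : 0 ≤ r ∨ r < 0 := le_or_gt 0 r
  have hδ0 : 0 ≤ δ := (abs_nonneg _).trans (hf c c)
  have hr : 0 < r := by linarith
  have hdist : ∀ p q, dist (f p) (f q) = min |Y p - Y q| (2 * π - |Y p - Y q|) := by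
    intro p q
    rw [hY3 p, hY3 q, dist_add_left, S1_dist _ _ (by linarith [hYd p q])]
  have hclose : ∀ η p q, dist p q ≤ η → δ + η < 2 * r → |Y p - Y q| ≤ δ + η := by
    intro η p q hpq hη
    have h1 := (abs_le.1 (hf p q)).2
    rw [hdist] at h1
    rcases min_choice |Y p - Y q| (2 * π - |Y p - Y q|) with h | h
    · rw [h] at h1; linarith
    · rw [h] at h1
      linarith [hYd p q]
  have hfar : ∀ η p q, π - η ≤ dist p q → π - η - δ ≤ |Y p - Y q| := by
    intro η p q hpq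
    have h1 := (abs_le.1 (hf p q)).1
    have h2 : dist (f p) (f q) ≤ |Y p - Y q| := by rw [hdist]; exact min_le_left _ _
    linarith
  -- the discrete loop
  have main : ∀ N : ℕ, 0 < N → δ + π / N < 2 * r → 2 * π ≤ 3 * δ + 2 * (π / N) ∧ 2 * r ≤ 2 * δ + π / N := by
    intro N hN hsmall
    have hN' : (0 : ℝ) < N := by exact_mod_cast hN
    have hN1 : (1 : ℝ) ≤ N := by exact_mod_cast hN
    set η := π / N with hη
    have hη0 : 0 < η := by positivity
    have hηπ : η ≤ π := div_le_self hπ.le hN1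
    let P : ℕ → S1 := fun k => ((k * η : ℝ) : S1)
    let Q : ℕ → S1 := fun k => ((k * η + π : ℝ) : S1)
    have hPN : P N = Q 0 := by
      change ((N * η : ℝ) : S1) = (((0 : ℕ) * η + π : ℝ) : S1)
      congr 1
      rw [hη]
      field_simp
      simp
    have hQN : Q N = P 0 := by
      change ((N * η + π : ℝ) : S1) = (((0 : ℕ) * η : ℝ) : S1)
      have e : (N * η + π : ℝ) = 2 * π := by
        rw [hη]; field_simp; ring
      rw [e, AddCircle.coe_period]
      simp
    have dPP : ∀ k, dist (P k) (P (k + 1)) ≤ η := by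
      intro k
      refine (S1_dist_le _ _).trans (le_of_eq ?_)
      push_cast
      rw [show (k * η - (k + 1) * η : ℝ) = -η by ring, abs_neg, abs_of_pos hη0]
    have dQQ : ∀ k, dist (Q k) (Q (k + 1)) ≤ η := by
      intro k
      refine (S1_dist_le _ _).trans (le_of_eq ?_)
      push_cast
      rw [show (k * η + π - ((k + 1) * η + π) : ℝ) = -η by ring, abs_neg, abs_of_pos hη0]
    have dPQ : ∀ k, π - 0 ≤ dist (P k) (Q k) := by
      intro k
      have e : |(k * η - (k * η + π) : ℝ)| = π := by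
        rw [show (k * η - (k * η + π) : ℝ) = -π by ring, abs_neg, abs_of_pos hπ]
      change π - 0 ≤ dist ((k * η : ℝ) : S1) ((k * η + π : ℝ) : S1)
      rw [S1_dist _ _ (by rw [e]; linarith), e]
      apply le_min <;> linarith
    have dPQ' : ∀ k, π - η ≤ dist (P k) (Q (k + 1)) := by
      intro k
      have e : |(k * η - ((k + 1 : ℕ) * η + π) : ℝ)| = π + η := by
        push_cast
        rw [show (k * η - ((k + 1) * η + π) : ℝ) = -(π + η) by ring, abs_neg, abs_of_pos (by linarith)]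
      change π - η ≤ dist ((k * η : ℝ) : S1) (((k + 1 : ℕ) * η + π : ℝ) : S1)
      rw [S1_dist _ _ (by rw [e]; linarith), e]
      apply le_min <;> linarith
    obtain ⟨k, -, hk⟩ := sign_change (fun k => Y (P k) - Y (Q k)) N (by
      rw [hPN, hQN]; ring) (by
      intro k hk
      have h := hfar 0 (P k) (Q k) (dPQ k)
      change Y (P k) - Y (Q k) = 0 at hk
      rw [hk, abs_zero] at h
      linarith)
    change (0 < Y (P k) - Y (Q k) ∧ Y (P (k + 1)) - Y (Q (k + 1)) < 0) ∨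
      (Y (P k) - Y (Q k) < 0 ∧ 0 < Y (P (k + 1)) - Y (Q (k + 1))) at hk
    have a1 := hclose η _ _ (dPP k) hsmall
    have a2 := hclose η _ _ (dQQ k) hsmall
    have a3 := hfar 0 _ _ (dPQ k)
    have a4 := hfar 0 _ _ (dPQ (k + 1))
    have a5 := hfar η _ _ (dPQ' k)
    have b1 := hYd (P k) (P (k + 1))
    have b2 := hYd (Q k) (Q (k + 1))
    generalize Y (P k) = a at *
    generalize Y (Q k) = b at *
    generalize Y (P (k + 1)) = a' at *
    generalize Y (Q (k + 1)) = b' at *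
    rw [abs_le] at a1 a2 b1 b2
    rcases hk with ⟨h1, h2⟩ | ⟨h1, h2⟩
    · rw [abs_of_pos h1] at a3
      rw [abs_of_neg h2] at a4
      rcases le_total 0 (a - b') with h3 | h3
      · rw [abs_of_nonneg h3] at a5
        constructor <;> linarith
      · rw [abs_of_nonpos h3] at a5
        constructor <;> linarith
    · rw [abs_of_neg h1] at a3
      rw [abs_of_pos h2] at a4
      rcases le_total 0 (a - b') with h3 | h3
      · rw [abs_of_nonneg h3] at a5
        constructor <;> linarith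
      · rw [abs_of_nonpos h3] at a5
        constructor <;> linarith
  -- let `N → ∞`
  have hlim : Filter.Tendsto (fun N : ℕ => π / (N : ℝ)) Filter.atTop (nhds 0) :=
    tendsto_const_div_atTop_nhds_zero_nat π
  have hev : ∀ᶠ N : ℕ in Filter.atTop, 2 * π ≤ 3 * δ + 2 * (π / N) ∧ 2 * r ≤ 2 * δ + π / N := by
    filter_upwards [Filter.eventually_gt_atTop 0, hlim.eventually (gt_mem_nhds (show (0 : ℝ) < 2 * r - δ by linarith))]
      with N h1 h2
    exact main N h1 (by linarith)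
  constructor
  · have := ge_of_tendsto ((hlim.const_mul 2).const_add (3 * δ)) (hev.mono fun N h => h.1)
    linarith
  · have := ge_of_tendsto (hlim.const_add (2 * δ)) (hev.mono fun N h => h.2)
    linarith

/-- `d_H(X, S¹) = sup_{p ∈ S¹} inf_{x ∈ X} d(p, x)` -/
noncomputable def dH (X : Set S1) : ℝ := ⨆ p : S1, Metric.infDist p X

/-- `d_GH(X, S¹)`: the infimum, over all metric spaces `Z` and isometric embeddings `Φ : X → Z`,
`Ψ : S¹ → Z`, of the Hausdorff distance in `Z` between the two images -/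
noncomputable def dGH (X : Set S1) : ℝ :=
  sInf {h : ℝ | ∃ (Z : Type) (_ : MetricSpace Z) (Φ : X → Z) (Ψ : S1 → Z), Isometry Φ ∧ Isometry Ψ ∧
    h = Metric.hausdorffDist (Set.range Φ) (Set.range Ψ)}

theorem infDist_le_pi {X : Set S1} (hX : X.Nonempty) (p : S1) : Metric.infDist p X ≤ π := by
  obtain ⟨x, hx⟩ := hX
  exact (Metric.infDist_le_dist_of_mem hx).trans (S1_dist_le_pi _ _)

theorem bdd {X : Set S1} (hX : X.Nonempty) : BddAbove (Set.range fun p : S1 => Metric.infDist p X) :=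
  ⟨π, by rintro _ ⟨p, rfl⟩; exact infDist_le_pi hX p⟩

theorem infDist_le_dH {X : Set S1} (hX : X.Nonempty) (p : S1) : Metric.infDist p X ≤ dH X :=
  le_ciSup (bdd hX) p

theorem dH_nonneg {X : Set S1} (hX : X.Nonempty) : 0 ≤ dH X :=
  Metric.infDist_nonneg.trans (infDist_le_dH hX 0)

theorem dGH_bdd (X : Set S1) :
    BddBelow {h : ℝ | ∃ (Z : Type) (_ : MetricSpace Z) (Φ : X → Z) (Ψ : S1 → Z), Isometry Φ ∧ Isometry Ψ ∧
    h = Metric.hausdorffDist (Set.range Φ) (Set.range Ψ)} :=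
  ⟨0, by rintro h ⟨Z, _, Φ, Ψ, -, -, rfl⟩; exact Metric.hausdorffDist_nonneg⟩

theorem dGH_le_dH {X : Set S1} (hX : X.Nonempty) : dGH X ≤ dH X := by
  refine (csInf_le (dGH_bdd X) ⟨S1, inferInstance, Subtype.val, id, isometry_subtype_coe, isometry_id, rfl⟩).trans ?_
  rw [Subtype.range_coe, Set.range_id]
  refine Metric.hausdorffDist_le_of_infDist (dH_nonneg hX) ?_ ?_
  · intro x _
    rw [Metric.infDist_zero_of_mem (Set.mem_univ x)]
    exact dH_nonneg hX
  · intro p _
    exact infDist_le_dH hX p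

theorem le_dGH {X : Set S1} (hX : X.Nonempty) : max (min (dH X) (π / 3)) (dH X / 2) ≤ dGH X := by
  have hr0 := dH_nonneg hX
  refine le_csInf ⟨_, S1, inferInstance, Subtype.val, id, isometry_subtype_coe, isometry_id, rfl⟩ ?_
  rintro h ⟨Z, _, Φ, Ψ, hΦ, hΨ, rfl⟩
  by_contra hcon
  rw [not_le] at hcon
  obtain ⟨ρ, hρ1, hρ2⟩ := exists_between hcon
  have hρ0 : 0 ≤ ρ := Metric.hausdorffDist_nonneg.trans hρ1.le
  have hfin : Metric.hausdorffEDist (Set.range Φ) (Set.range Ψ) ≠ ⊤ := by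
    apply Metric.hausdorffEDist_ne_top_of_nonempty_of_bounded
    · obtain ⟨x, hx⟩ := hX
      exact ⟨Φ ⟨x, hx⟩, Set.mem_range_self _⟩
    · exact ⟨Ψ 0, Set.mem_range_self _⟩
    · refine Metric.isBounded_iff.2 ⟨π, ?_⟩
      rintro _ ⟨x, rfl⟩ _ ⟨y, rfl⟩
      rw [hΦ.dist_eq]
      exact S1_dist_le_pi _ _
    · refine Metric.isBounded_iff.2 ⟨π, ?_⟩
      rintro _ ⟨x, rfl⟩ _ ⟨y, rfl⟩
      rw [hΨ.dist_eq]
      exact S1_dist_le_pi _ _
  have hex : ∀ p : S1, ∃ x : X, dist (Φ x) (Ψ p) < ρ := by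
    intro p
    obtain ⟨_, ⟨x, rfl⟩, hx⟩ := Metric.exists_dist_lt_of_hausdorffDist_lt' (Set.mem_range_self p) hρ1 hfin
    exact ⟨x, hx⟩
  choose f hf using hex
  have hdis : ∀ p q, |dist (f p : S1) (f q : S1) - dist p q| ≤ 2 * ρ := by
    intro p q
    have e1 : dist (f p : S1) (f q : S1) = dist (Φ (f p)) (Φ (f q)) := (hΦ.dist_eq _ _).symm
    have e2 : dist p q = dist (Ψ p) (Ψ q) := (hΨ.dist_eq _ _).symm
    have t1 := dist_triangle4 (Φ (f p)) (Ψ p) (Ψ q) (Φ (f q))
    have t2 := dist_triangle4 (Ψ p) (Φ (f p)) (Φ (f q)) (Ψ q)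
    have u1 := hf p
    have u2 := hf q
    rw [dist_comm (Ψ q) (Φ (f q))] at t1
    rw [dist_comm (Ψ p) (Φ (f p))] at t2
    rw [e1, e2, abs_le]
    constructor <;> linarith
  -- `core` for every radius smaller than `dH X`
  have hcore : ∀ r', ρ < r' → r' < dH X → 2 * π / 3 ≤ 2 * ρ ∧ r' ≤ 2 * ρ := by
    intro r' h1 h2
    obtain ⟨c, hc⟩ := exists_lt_of_lt_ciSup h2
    refine core c (fun p => (f p : S1)) r' (2 * ρ) (by linarith) ?_ hdis
    intro p
    exact hc.le.trans (Metric.infDist_le_dist_of_mem (f p).2)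
  rcases lt_max_iff.1 hρ2 with h | h
  · have hρr : ρ < dH X := h.trans_le (min_le_left _ _)
    obtain ⟨r', h1, h2⟩ := exists_between hρr
    have := (hcore r' h1 h2).1
    linarith [h.trans_le (min_le_right _ _)]
  · obtain ⟨r', h1, h2⟩ := exists_between (show 2 * ρ < dH X by linarith)
    have := (hcore r' (by linarith) h2).2
    linarith

/-- a correspondence of distortion at most `2ε` gives `d_GH ≤ ε` -/
theorem dGH_le {X : Set S1} (ι : Type) [Nonempty ι] (u v : ι → S1) (ε : ℝ) (hε : 0 < ε)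
    (hu : ∀ i, u i ∈ X) (hu' : ∀ x ∈ X, ∃ i, u i = x) (hv : ∀ p, ∃ i, v i = p)
    (H : ∀ i j, |dist (u i) (u j) - dist (v i) (v j)| ≤ 2 * ε) : dGH X ≤ ε := by
  let Φ : ι → X := fun i => ⟨u i, hu i⟩
  let m : MetricSpace (X ⊕ S1) := Metric.glueMetricApprox Φ v ε hε H
  refine (csInf_le (dGH_bdd X) ⟨X ⊕ S1, m, Sum.inl, Sum.inr, ?_, ?_, rfl⟩).trans ?_
  · exact Isometry.of_dist_eq fun x y => rfl
  · exact Isometry.of_dist_eq fun x y => rfl
  · have hd : ∀ i, dist (Sum.inl (Φ i) : X ⊕ S1) (Sum.inr (v i)) = ε := fun i =>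
      Metric.glueDist_glued_points Φ v ε i
    refine Metric.hausdorffDist_le_of_mem_dist hε.le ?_ ?_
    · rintro _ ⟨x, rfl⟩
      obtain ⟨i, hi⟩ := hu' x.1 x.2
      have e : Φ i = x := Subtype.ext hi
      refine ⟨Sum.inr (v i), Set.mem_range_self _, ?_⟩
      rw [← e]
      exact (hd i).le
    · rintro _ ⟨p, rfl⟩
      obtain ⟨i, rfl⟩ := hv p
      refine ⟨Sum.inl (Φ i), Set.mem_range_self _, ?_⟩
      rw [dist_comm]
      exact (hd i).le

/-- arc `[0,a]` together with the point `L` -/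
def XX (a L : ℝ) : Set S1 := (fun t : ℝ => (t : S1)) '' (Set.Icc 0 a ∪ {L})

theorem XX_nonempty (a L : ℝ) : (XX a L).Nonempty := ⟨_, L, Or.inr rfl, rfl⟩

theorem dH_XX (a L : ℝ) (h0 : 0 ≤ a) (h1 : a ≤ L) (h2 : L ≤ 2 * π) (h3 : L - a ≤ 2 * π - L) :
    dH (XX a L) = π - L / 2 := by
  have hπ := Real.pi_pos
  have hL : (L : S1) ∈ XX a L := ⟨L, Or.inr rfl, rfl⟩
  have ha : (a : S1) ∈ XX a L := ⟨a, Or.inl ⟨h0, le_rfl⟩, rfl⟩
  have hz : ((2 * π : ℝ) : S1) ∈ XX a L := by
    rw [AddCircle.coe_period]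
    exact ⟨0, Or.inl ⟨le_rfl, h0⟩, by simp⟩
  apply le_antisymm
  · refine ciSup_le fun p => ?_
    obtain ⟨t, ht0, ht1, he⟩ := exists_coord 0 p
    rw [zero_add] at he
    subst he
    rcases le_or_gt t a with h | h
    · rw [Metric.infDist_zero_of_mem (show (t : S1) ∈ XX a L from ⟨t, Or.inl ⟨ht0, h⟩, rfl⟩)]
      linarith
    rcases le_or_gt t L with h' | h'
    · have e1 := (Metric.infDist_le_dist_of_mem (x := (t : S1)) ha).trans (S1_dist_le _ _)
      have e2 := (Metric.infDist_le_dist_of_mem (x := (t : S1)) hL).trans (S1_dist_le _ _)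
      rw [abs_of_pos (by linarith)] at e1
      rw [abs_of_nonpos (by linarith)] at e2
      linarith
    · have e1 := (Metric.infDist_le_dist_of_mem (x := (t : S1)) hL).trans (S1_dist_le _ _)
      have e2 := (Metric.infDist_le_dist_of_mem (x := (t : S1)) hz).trans (S1_dist_le _ _)
      rw [abs_of_pos (by linarith)] at e1
      rw [abs_of_nonpos (by linarith)] at e2
      linarith
  · refine le_trans ?_ (infDist_le_dH (XX_nonempty a L) ((π + L / 2 : ℝ) : S1))
    rw [Metric.le_infDist (XX_nonempty a L)]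
    rintro _ ⟨t, ht, rfl⟩
    have ht' : 0 ≤ t ∧ t ≤ L := by
      rcases ht with ht | ht
      · exact ⟨ht.1, ht.2.trans h1⟩
      · rw [Set.mem_singleton_iff] at ht
        rw [ht]
        exact ⟨h0.trans h1, le_rfl⟩
    have e : |(π + L / 2 - t)| = π + L / 2 - t := abs_of_nonneg (by linarith)
    change π - L / 2 ≤ dist ((π + L / 2 : ℝ) : S1) (t : S1)
    rw [S1_dist _ _ (by rw [e]; linarith), e]
    apply le_min <;> linarith

theorem mid_case (r : ℝ) (h1 : π / 3 ≤ r) (h2 : r ≤ 2 * π / 3) : dGH (XX (2 * π / 3) (2 * π - 2 * r)) ≤ π / 3 := by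
  have hπ := Real.pi_pos
  have dd : ∀ a b : ℝ, 0 ≤ a → a ≤ 2 * π → 0 ≤ b → b ≤ 2 * π →
      dist (a : S1) (b : S1) = min |a - b| (2 * π - |a - b|) := fun a b h1 h2 h3 h4 =>
    S1_dist a b (by rw [abs_le]; constructor <;> linarith)
  let ι : Type := {z : ℝ × ℝ // (z.1 = z.2 / 3 ∧ 0 ≤ z.2 ∧ z.2 ≤ 2 * π) ∨
    (z.1 = 2 * π - 2 * r ∧ z.2 = 8 * π / 3 - 2 * r)}
  have hne : Nonempty ι := ⟨⟨(0, 0), Or.inl ⟨by simp, le_rfl, by positivity⟩⟩⟩
  refine dGH_le ι (fun z => ((z.1.1 : ℝ) : S1)) (fun z => ((z.1.2 : ℝ) : S1)) (π / 3) (by positivity) ?_ ?_ ?_ ?_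
  · rintro ⟨⟨a, t⟩, h | h⟩
    · exact ⟨a, Or.inl ⟨by simp only at h; linarith [h.1, h.2.1], by simp only at h; linarith [h.1, h.2.2]⟩, rfl⟩
    · exact ⟨a, Or.inr h.1, rfl⟩
  · rintro _ ⟨t, ht | ht, rfl⟩
    · refine ⟨⟨(t, 3 * t), Or.inl ⟨by simp, by simp only; linarith [ht.1], by simp only; linarith [ht.2]⟩⟩, rfl⟩
    · rw [Set.mem_singleton_iff] at ht
      exact ⟨⟨(t, 8 * π / 3 - 2 * r), Or.inr ⟨ht, rfl⟩⟩, rfl⟩
  · intro p
    obtain ⟨t, ht0, ht1, he⟩ := exists_coord 0 p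
    rw [zero_add] at he
    exact ⟨⟨(t / 3, t), Or.inl ⟨rfl, ht0, ht1.le⟩⟩, he.symm⟩
  · -- distortion
    have c1 : ∀ t t' : ℝ, 0 ≤ t → t ≤ 2 * π → 0 ≤ t' → t' ≤ 2 * π →
        |dist ((t / 3 : ℝ) : S1) ((t' / 3 : ℝ) : S1) - dist (t : S1) (t' : S1)| ≤ 2 * (π / 3) := by
      intro t t' a1 a2 a3 a4
      rw [dd _ _ (by linarith) (by linarith) (by linarith) (by linarith), dd _ _ a1 a2 a3 a4,
        show t / 3 - t' / 3 = (t - t') / 3 by ring, abs_div, abs_of_pos (show (0 : ℝ) < 3 by norm_num)]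
      have hw0 : 0 ≤ |t - t'| := abs_nonneg _
      have hw1 : |t - t'| ≤ 2 * π := by rw [abs_le]; constructor <;> linarith
      generalize |t - t'| = w at *
      rw [min_eq_left (by linarith)]
      rcases min_choice w (2 * π - w) with h | h <;> rw [h, abs_le]
      · have := min_eq_left_iff.1 h
        constructor <;> linarith
      · have := min_eq_right_iff.1 h
        constructor <;> linarith
    have c2 : ∀ t : ℝ, 0 ≤ t → t ≤ 2 * π →
        |dist ((t / 3 : ℝ) : S1) ((2 * π - 2 * r : ℝ) : S1) - dist (t : S1) ((8 * π / 3 - 2 * r : ℝ) : S1)|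
          ≤ 2 * (π / 3) := by
      intro t a1 a2
      rw [dd _ _ (by linarith) (by linarith) (by linarith) (by linarith),
        dd _ _ a1 a2 (by linarith) (by linarith),
        abs_of_nonpos (show t / 3 - (2 * π - 2 * r) ≤ 0 by linarith)]
      rcases le_total (t - (8 * π / 3 - 2 * r)) 0 with h | h
      · rw [abs_of_nonpos h, abs_le]
        rcases min_cases (-(t / 3 - (2 * π - 2 * r))) (2 * π - -(t / 3 - (2 * π - 2 * r))) with ⟨e1, e2⟩ | ⟨e1, e2⟩ <;>
        rcases min_cases (-(t - (8 * π / 3 - 2 * r))) (2 * π - -(t - (8 * π / 3 - 2 * r))) with ⟨e3, e4⟩ | ⟨e3, e4⟩ <;>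
        rw [e1, e3] <;> constructor <;> linarith
      · rw [abs_of_nonneg h, abs_le]
        rcases min_cases (-(t / 3 - (2 * π - 2 * r))) (2 * π - -(t / 3 - (2 * π - 2 * r))) with ⟨e1, e2⟩ | ⟨e1, e2⟩ <;>
        rcases min_cases (t - (8 * π / 3 - 2 * r)) (2 * π - (t - (8 * π / 3 - 2 * r))) with ⟨e3, e4⟩ | ⟨e3, e4⟩ <;>
        rw [e1, e3] <;> constructor <;> linarith
    rintro ⟨⟨a, t⟩, h | h⟩ ⟨⟨a', t'⟩, h' | h'⟩
    · obtain ⟨h1, h2, h3⟩ := h
      obtain ⟨h1', h2', h3'⟩ := h'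
      simp only at h1 h2 h3 h1' h2' h3' ⊢
      rw [h1, h1']
      exact c1 t t' h2 h3 h2' h3'
    · obtain ⟨h1, h2, h3⟩ := h
      obtain ⟨h1', h2'⟩ := h'
      simp only at h1 h2 h3 h1' h2' ⊢
      rw [h1, h1', h2']
      exact c2 t h2 h3
    · obtain ⟨h1, h2, h3⟩ := h'
      obtain ⟨h1', h2'⟩ := h
      simp only at h1 h2 h3 h1' h2' ⊢
      rw [h1, h1', h2', dist_comm, dist_comm (((8 * π / 3 - 2 * r : ℝ) : S1))]
      exact c2 t' h2 h3
    · obtain ⟨h1, h2⟩ := h
      obtain ⟨h1', h2'⟩ := h'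
      simp only at h1 h2 h1' h2' ⊢
      rw [h1, h1', h2, h2', dist_self, dist_self, sub_zero, abs_zero]
      positivity

theorem arc_case (r : ℝ) (h1 : 2 * π / 3 ≤ r) (h2 : r ≤ π) : dGH (XX (2 * π - 2 * r) (2 * π - 2 * r)) ≤ r / 2 := by
  have hπ := Real.pi_pos
  have dd : ∀ a b : ℝ, 0 ≤ a → a ≤ 2 * π → 0 ≤ b → b ≤ 2 * π →
      dist (a : S1) (b : S1) = min |a - b| (2 * π - |a - b|) := fun a b h1 h2 h3 h4 =>
    S1_dist a b (by rw [abs_le]; constructor <;> linarith)
  -- ratio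
  obtain ⟨k, hk⟩ : ∃ k : ℝ, k * π = π - r := ⟨(π - r) / π, div_mul_cancel₀ _ hπ.ne'⟩
  have hk0 : 0 ≤ k := by
    by_contra h
    rw [not_le] at h
    nlinarith
  have hk1 : 3 * k ≤ 1 := by
    by_contra h
    rw [not_le] at h
    nlinarith
  let ι : Type := {z : ℝ × ℝ // z.1 = k * z.2 ∧ 0 ≤ z.2 ∧ z.2 ≤ 2 * π}
  have hne : Nonempty ι := ⟨⟨(0, 0), by simp, le_rfl, by positivity⟩⟩
  refine dGH_le ι (fun z => ((z.1.1 : ℝ) : S1)) (fun z => ((z.1.2 : ℝ) : S1)) (r / 2) (by linarith) ?_ ?_ ?_ ?_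
  · rintro ⟨⟨a, t⟩, h, h', h''⟩
    simp only at h h' h''
    refine ⟨a, Or.inl ⟨by rw [h]; positivity, ?_⟩, rfl⟩
    rw [h]
    nlinarith
  · have key : ∀ t : ℝ, 0 ≤ t → t ≤ 2 * π - 2 * r → ∃ w : ℝ, t = k * w ∧ 0 ≤ w ∧ w ≤ 2 * π := by
      intro t ht0 ht1
      rcases eq_or_lt_of_le hk0 with h | h
      · refine ⟨0, ?_, le_rfl, by positivity⟩
        rw [← h, zero_mul] at hk
        linarith
      · refine ⟨t / k, by field_simp, by positivity, ?_⟩
        rw [div_le_iff₀ h]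
        linarith
    rintro _ ⟨t, ht, rfl⟩
    have ht' : 0 ≤ t ∧ t ≤ 2 * π - 2 * r := by
      rcases ht with ht | ht
      · exact ht
      · rw [Set.mem_singleton_iff] at ht
        rw [ht]
        constructor <;> linarith
    obtain ⟨w, hw1, hw2, hw3⟩ := key t ht'.1 ht'.2
    exact ⟨⟨(t, w), hw1, hw2, hw3⟩, rfl⟩
  · intro p
    obtain ⟨t, ht0, ht1, he⟩ := exists_coord 0 p
    rw [zero_add] at he
    exact ⟨⟨(k * t, t), rfl, ht0, ht1.le⟩, he.symm⟩
  · rintro ⟨⟨a, t⟩, b1, b2, b3⟩ ⟨⟨a', t'⟩, b1', b2', b3'⟩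
    simp only at b1 b2 b3 b1' b2' b3' ⊢
    have q1 : 0 ≤ a := by rw [b1]; positivity
    have q2 : a ≤ 2 * π := by rw [b1]; nlinarith
    have q1' : 0 ≤ a' := by rw [b1']; positivity
    have q2' : a' ≤ 2 * π := by rw [b1']; nlinarith
    rw [dd _ _ q1 q2 q1' q2', dd _ _ b2 b3 b2' b3', b1, b1', ← mul_sub, abs_mul, abs_of_nonneg hk0]
    have hw0 : 0 ≤ |t - t'| := abs_nonneg _
    have hw1 : |t - t'| ≤ 2 * π := by rw [abs_le]; constructor <;> linarith
    generalize |t - t'| = w at *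
    have hkw : k * w ≤ k * (2 * π) := mul_le_mul_of_nonneg_left hw1 hk0
    rw [min_eq_left (by nlinarith)]
    rcases min_cases w (2 * π - w) with ⟨e1, e2⟩ | ⟨e1, e2⟩ <;> rw [e1, abs_le]
    · constructor <;> nlinarith
    · constructor <;> nlinarith

/-- **Main theorem.** Q1 is false: the threshold for the equality `d_GH(X,S¹) = d_H(X,S¹)` is `π/3`
(attained and best possible). More precisely, `max(min(d_H, π/3), d_H/2) ≤ d_GH ≤ d_H` for every nonempty
`X ⊆ S¹`, and the lower bound is attained for every value `r ∈ [0,π]` of `d_H`. -/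
theorem result :
    (¬ ∀ ε : ℝ, 0 < ε → ∃ X : Set S1, X.Nonempty ∧ dH X < π / 6 + ε ∧ dGH X < dH X) ∧
    (∀ X : Set S1, X.Nonempty → dH X ≤ π / 3 → dGH X = dH X) ∧
    (∀ ε : ℝ, 0 < ε → ∃ X : Set S1, X.Nonempty ∧ dH X < π / 3 + ε ∧ dGH X < dH X) ∧
    (∀ X : Set S1, X.Nonempty → max (min (dH X) (π / 3)) (dH X / 2) ≤ dGH X ∧ dGH X ≤ dH X) ∧
    (∀ r : ℝ, 0 ≤ r → r ≤ π → ∃ X : Set S1, X.Nonempty ∧ dH X = r ∧ dGH X = max (min r (π / 3)) (r / 2)) := by
  have hπ := Real.pi_pos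
  have H3 : ∀ X : Set S1, X.Nonempty → dH X ≤ π / 3 → dGH X = dH X := by
    intro X hX h
    apply le_antisymm (dGH_le_dH hX)
    have := (le_max_left _ _).trans (le_dGH hX)
    rwa [min_eq_left h] at this
  have H5 : ∀ r : ℝ, 0 ≤ r → r ≤ π → ∃ X : Set S1, X.Nonempty ∧ dH X = r ∧
      dGH X = max (min r (π / 3)) (r / 2) := by
    intro r hr0 hr1
    rcases le_total r (π / 3) with h | h
    · have e := dH_XX (2 * π - 2 * r) (2 * π - 2 * r) (by linarith) le_rfl (by linarith) (by linarith)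
      have e' : dH (XX (2 * π - 2 * r) (2 * π - 2 * r)) = r := by rw [e]; ring
      refine ⟨_, XX_nonempty _ _, e', ?_⟩
      rw [H3 _ (XX_nonempty _ _) (by rw [e']; exact h), e', min_eq_left h, max_eq_left (by linarith)]
    rcases le_total r (2 * π / 3) with h' | h'
    · have e := dH_XX (2 * π / 3) (2 * π - 2 * r) (by positivity) (by linarith) (by linarith) (by linarith)
      have e' : dH (XX (2 * π / 3) (2 * π - 2 * r)) = r := by rw [e]; ring
      refine ⟨_, XX_nonempty _ _, e', ?_⟩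
      have l := le_dGH (XX_nonempty (2 * π / 3) (2 * π - 2 * r))
      rw [e', min_eq_right h, max_eq_left (by linarith)] at l
      rw [min_eq_right h, max_eq_left (by linarith)]
      exact le_antisymm (mid_case r h h') l
    · have e := dH_XX (2 * π - 2 * r) (2 * π - 2 * r) (by linarith) le_rfl (by linarith) (by linarith)
      have e' : dH (XX (2 * π - 2 * r) (2 * π - 2 * r)) = r := by rw [e]; ring
      refine ⟨_, XX_nonempty _ _, e', ?_⟩
      have l := le_dGH (XX_nonempty (2 * π - 2 * r) (2 * π - 2 * r))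
      rw [e', min_eq_right h, max_eq_right (by linarith)] at l
      rw [min_eq_right h, max_eq_right (by linarith)]
      exact le_antisymm (arc_case r h' hr1) l
  refine ⟨?_, H3, ?_, fun X hX => ⟨le_dGH hX, dGH_le_dH hX⟩, H5⟩
  · intro h
    obtain ⟨X, hX, h1, h2⟩ := h (π / 6) (by positivity)
    rw [H3 X hX (by linarith)] at h2
    exact lt_irrefl _ h2
  · intro ε hε
    obtain ⟨r, hr1, hr2⟩ := exists_between (lt_min (show π / 3 < π / 3 + ε by linarith)
      (show π / 3 < 2 * π / 3 by linarith))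
    have hr3 := hr2.trans_le (min_le_left _ _)
    have hr4 := hr2.trans_le (min_le_right _ _)
    obtain ⟨X, hX, e1, e2⟩ := H5 r (by linarith) (by linarith)
    refine ⟨X, hX, by rw [e1]; exact hr3, ?_⟩
    rw [e1, e2, min_eq_right hr1.le, max_eq_left (by linarith)]
    exact hr1

end Pool.Agent.Results.MP_124474_gt.SharpThreshold
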